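import Mathlib
import Pool.Agent.H.MP_77d395_lc.A

set_option autoImplicit false

namespace Pool.Agent.Results.MP_f4378e_lc.Yes

open Set Filter Function Cardinal Pool.Agent.H.MP_77d395_lc

theorem result (CH : continuum.{0} = ℵ₁) :
    ∃ (Y : Type) (_ : TopologicalSpace Y) (ι : ℕ → Y) (star : (ℕ → ℕ) → Y → Y),
      T1Space Y ∧ Injective ι ∧ Dense (range ι) ∧ DiscreteTopology (range ι) ∧
      (∀ f, Continuous (star f)) ∧ (∀ f n, star f (ι n) = ι (f n)) ∧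
      (∀ f g, star g ∘ star f = star (g ∘ f)) ∧
      (∀ f (A : Set ℕ), (∀ x ∈ A, f x = x) → ∀ ξ ∈ closure (ι '' A), star f ξ = ξ) ∧
      (∀ f g : ℕ → ℕ, (∀ x, f x ≠ g x) ↔ ∀ ξ, star f ξ ≠ star g ξ) ∧
      (∃ p q, ∀ ξ η, ∃ ζ, star p ζ = ξ ∧ star q ζ = η) ∧
      T2Space Y ∧ ∀ U : ℕ → Set Y, (∀ n, IsOpen (U n)) → ⋃ n, U n = Set.univ →
        ∃ F : Finset ℕ, ⋃ n ∈ F, U n = Set.univ := by
  obtain ⟨Y, y1, y2, y3, y4, y5⟩ := main CH
  have hc : ∀ f : ℕ → ℕ, Continuous fun U : Y => (⟨_, y2 f _ U.2⟩ : Y) := fun f =>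
    (((ultrafilterBasis_is_basis.continuous_iff (f := Ultrafilter.map f)).2 fun _ ⟨s, e⟩ =>
      e ▸ ultrafilter_isOpen_basic (f ⁻¹' s)).comp continuous_subtype_val).subtype_mk _
  refine ⟨Y, inferInstance, fun n => ⟨_, y1 n⟩, fun f U => ⟨_, y2 f _ U.2⟩, inferInstance,
    fun a b h => Ultrafilter.pure_injective (congrArg Subtype.val h), ?_, ?_, hc, fun f n => rfl,
    fun f g => rfl, fun f A h => ?_, fun f g => ⟨fun h U c => ?_, fun h n c =>
    h ⟨_, y1 n⟩ (Subtype.ext (congrArg pure c))⟩, ⟨(·.unpair.1), (·.unpair.2),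
    fun U V => ?_⟩, inferInstance,
    fun U h1 h2 => ?_⟩
  · refine Subtype.dense_iff.2 fun U _ => closure_mono ?_ (denseRange_pure U)
    rintro _ ⟨n, rfl⟩
    exact ⟨_, ⟨n, rfl⟩, rfl⟩
  · refine discreteTopology_iff_isOpen_singleton.2 fun ⟨_, n, rfl⟩ => ?_
    convert ((ultrafilter_isOpen_basic {n}).preimage continuous_subtype_val).preimage
      continuous_subtype_val using 1
    ext ⟨_, m, rfl⟩
    simp [Ultrafilter.pure_injective.eq_iff]
  · refine closure_minimal ?_ (isClosed_eq (hc f) continuous_id)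
    rintro _ ⟨n, hn, rfl⟩
    exact Subtype.ext (congrArg pure (h n hn))
  · obtain ⟨n, c⟩ := U.1.nonempty_of_mem (y3 _ U.2 f g (congrArg Subtype.val c))
    exact h n c
  · obtain ⟨Z, z1, z2, z3⟩ := y4 _ U.2 _ V.2
    exact ⟨⟨Z, z1⟩, Subtype.ext z2, Subtype.ext z3⟩
  · obtain ⟨F, h⟩ := (cc y5).isCountablyCompact_univ.elim_finite_subcover h1 h2.ge
    exact ⟨F, univ_subset_iff.1 h⟩

end Pool.Agent.Results.MP_f4378e_lc.Yes
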